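import Pool.Agent.L0h10.RS.Abs

/-!
# Continuous actions, stable lines and the height of the monodromy

Let `k` be an algebraic closure of a field `K` of finite type over `ℚ`, embedded into the field of
complex numbers, and let `X` be a smooth projective variety over `k` which is defined over `K`. For a
prime number `ℓ` and `L = ℚ_ℓ`, the Galois group `Γ` of `k` over `K` acts on the `ℓ`-adic cohomology
algebras `V n = L ⊗ H(X(ℂ) ^ (n + 1), ℚ)` of the powers of `X`. Let `Ω` be an algebraic closure of
`L` and `U n = Ω ⊗ H(X(ℂ) ^ (n + 1), ℚ)`.
-/

universe v

namespace Pool.Agent.L0h10.RV

open Pool.Agent.L0h10.TW Pool.Agent.L0h10.RS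

variable {L Ω : Type} [Field L] [Field Ω] {C : PowerCohomology L Ω} {Γ : Type v} [Group Γ]
  [TopologicalSpace Γ] (G : GaloisAction C Γ)

/-- The cyclotomic character and the representation of `Γ` on `H(X, L)` are continuous: the values
of the linear forms at `g x` are continuous functions of `g`. (This is always true.) -/
def IsContinuous [TopologicalSpace L] : Prop :=
  Continuous G.χ ∧ ∀ x (f : C.V 0 → L), IsLinearMap L f → Continuous fun g => f (G.ρ 0 g x)

/-- The `Γ`-stable lines in the cohomology of the powers `X ^ n` with `n ≤ N` are spanned by Tate
classes: if `x` is homogeneous and `g x` is a multiple of `x` for all `g` in `Γ`, then `x` is a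
Tate class. (If `K` is contained in the field of real numbers, this is known to be true for all
`N`: by Deligne's theorems on weights the character of such a line has finite order on the geometric
fundamental group of a model over the number field `K₀` algebraically closed in `K`, it is of
Hodge-Tate type by Faltings, so by Tate and Serre a power of it comes from an algebraic Hecke
character of `K₀`; since `K₀` contains no CM field, the latter is a power of the norm times a
character of finite order by Weil. The observation is due to Moonen.) -/
def StableLinesAreTate (N : ℕ) : Prop := ∀ n i x, n < N → C.deg n i x →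
  (∀ g, ∃ c : L, IsMul c x (G.ρ n g x)) → ∃ j, IsTate G n j x

/-- `D` is an infinitesimal operator which is zero on the Tate classes on the powers of `X`. -/
def IsMonodromyOperator (D : ∀ n, C.U n → C.U n) : Prop := IsInfinitesimal C D ∧ KillsTate G D

/-- The commutator `x ↦ f(g(x)) - g(f(x))`. -/
def commutator {U : Type} [AddCommGroup U] (f g : U → U) : U → U := fun x => f (g x) - g (f x)

/-- The infinitesimal operators which are zero on the Tate classes act on `H(X)` as linear
combinations, with coefficients in `Ω`, of commutators of such operators and of such operators for
which `H(X, Ω)` is spanned by eigenvectors whose eigenvalues are integers of absolute value at most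
`w`. -/
def HeightIsAtMost (w : ℕ) : Prop := ∀ D, IsMonodromyOperator G D →
  IsComb Ω (fun f => (∃ E, IsWeightOperator G w E ∧ E 0 = f) ∨ ∃ E F, IsMonodromyOperator G E ∧
    IsMonodromyOperator G F ∧ commutator (E 0) (F 0) = f) (D 0)

/-- The height of the monodromy: the smallest `w` with this property. (It exists if the Tate
conjecture is true for `X ^ 4` and the action is semisimple, see the proof of the theorem. By the
theorems of Tate, Serre, Sen and Faltings it is then at most the maximum of `|p - q|` with
`H^(p,q)(X) ≠ 0`, since the Hodge-Tate operators, whose eigenvalues on the parts of type `(p, q)` are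
`p - q`, span the Lie algebra of the largest abelian quotient of the `ℓ`-adic monodromy group.) -/
noncomputable def height : ℕ := sInf {w | HeightIsAtMost G w}

end Pool.Agent.L0h10.RV
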