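import Pool.Agent.L0h10.RV.Abs
import Pool.Agent.L0h10.RS.Conv
import Pool.Agent.L0h10.RU.Core3

/-!
# The bounded power theorem for continuous actions: conversions
-/

open CategoryTheory AlgebraicGeometry
open scoped TensorProduct

universe u v

namespace Pool.Agent.L0h10.RV

open Pool.Agent.H914 Pool.Agent.H914.VarClass Pool.Agent.H914.VarClass.Obj
  Pool.Agent.H914.WeilCohomology
open Pool.Agent.Y121.AHS Pool.Agent.N996.FP
open Pool.Agent.Y133.Half (pw ClassPred)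
open Pool.Agent.Y121.AH (hodgePred)
open Pool.Agent.L0h10.TW Pool.Agent.L0h10.RT Pool.Agent.L0h10.RS Pool.Agent.L0h10.RU

variable {k : Type u} [Field k] {𝒱 : VarClass k} {ops : CycleOps 𝒱}
  {T : HodgeTheory ops} {X : 𝒱.Obj}
  {Γ : Type v} [Group Γ] {L : Type} [Field L] [Algebra T.W.K L]
  [TopologicalSpace Γ] (G : TW.GaloisAction (powers T X L) Γ)

lemma cts_iff [TopologicalSpace L] : IsCts (toTS G) ↔ IsContinuous G := Iff.rfl

lemma lines_iff (N : ℕ) : LinesTate (toTS G) N ↔ StableLinesAreTate G N := Iff.rfl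

lemma hgt_iff (w : ℕ) : HGT (AlgebraicClosure L) (T := T) (X := X) (toTS G) w ↔
    HeightIsAtMost G w := by
  have h1 : {f : (powers T X L).U 0 → (powers T X L).U 0 |
      (∃ E : TS.Operators T X (AlgebraicClosure L), IsWeight (toTS G) w E ∧ E 0 = f) ∨
      ∃ E F : TS.Operators T X (AlgebraicClosure L),
        (TS.IsInfinitesimal E ∧ TS.KillsTate (toTS G) E) ∧
        (TS.IsInfinitesimal F ∧ TS.KillsTate (toTS G) F) ∧ comm0 (E 0) (F 0) = f} =
      {f | (∃ E, IsWeightOperator G w E ∧ E 0 = f) ∨ ∃ E F, IsMonodromyOperator G E ∧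
        IsMonodromyOperator G F ∧ commutator (E 0) (F 0) = f} := by
    ext f
    constructor
    · rintro (⟨E, hE, rfl⟩ | ⟨E, F, hE, hF, rfl⟩)
      · exact Or.inl ⟨E, (weight_iff G w E).1 hE, rfl⟩
      · exact Or.inr ⟨E, F, ⟨(inf_iff E).1 hE.1, (kt_iff G E).1 hE.2⟩,
          ⟨(inf_iff F).1 hF.1, (kt_iff G F).1 hF.2⟩, rfl⟩
    · rintro (⟨E, hE, rfl⟩ | ⟨E, F, hE, hF, rfl⟩)
      · exact Or.inl ⟨E, (weight_iff G w E).2 hE, rfl⟩
      · exact Or.inr ⟨E, F, ⟨(inf_iff E).2 hE.1, (kt_iff G E).2 hE.2⟩,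
          ⟨(inf_iff F).2 hF.1, (kt_iff G F).2 hF.2⟩, rfl⟩
  constructor
  · intro h E hE
    have h2 := h E ((inf_iff E).2 hE.1) ((kt_iff G E).2 hE.2)
    exact (congrArg (fun S => E 0 ∈ Submodule.span (AlgebraicClosure L) S) h1).mp h2
  · intro h E hE hE'
    have h2 := h E ⟨(inf_iff E).1 hE, (kt_iff G E).1 hE'⟩
    exact (congrArg (fun S => E 0 ∈ Submodule.span (AlgebraicClosure L) S) h1).mpr h2

lemma height_eq {ℓ : ℕ} [Fact ℓ.Prime] [Algebra T.W.K ℚ_[ℓ]]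
    (G : TW.GaloisAction (powers T X ℚ_[ℓ]) Γ) :
    hgt (T := T) (X := X) (toTS G) (AlgebraicClosure ℚ_[ℓ]) = height G := by
  rw [hgt, height]
  congr 1
  ext w
  exact hgt_iff G w

/-- **The bounded power theorem for continuous actions.** -/
theorem bounded3 {ℓ : ℕ} [Fact ℓ.Prime] [Algebra T.W.K ℚ_[ℓ]] [IsTopologicalGroup Γ]
    [CompactSpace Γ] (G : TW.GaloisAction (powers T X ℚ_[ℓ]) Γ)
    (θ : AlgebraicClosure ℚ_[ℓ] ≃+* ℂ) {ψ : RForm T.W X} (hψ : IsPolarisation T X ψ)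
    (h1 : AlgebraicClassesAreTate G) (h2 : IsInvariant G (formL ℚ_[ℓ] ψ))
    (h3 : IsContinuous G) {N : ℕ}
    (hN : (CentreSelfAdjoint G (formL ℚ_[ℓ] ψ) ∧ N = max 4 (transcendental G)) ∨
      (SemisimpleMonodromy G ∧ N = max 4 (transcendental G ^ 2 / 4)) ∨
        N = max 8 ((max 1 (height G) * transcendental G) ^ transcendental G))
    (h4 : ActsSemisimply G ∨ StableLinesAreTate G N)
    (hT : TateConjecture G (N - 1)) : ActsSemisimply G ∧ ∀ n, TateConjecture G n ∧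
      (HodgeClassesAreTate G → TW.HodgeConjecture (powers T X ℚ_[ℓ]) n) := by
  have hN' : (CentreAdj (toTS G) (formL ℚ_[ℓ] ψ) ∧ N = max 4 (codim (toTS G))) ∨
      (CentreZero (AlgebraicClosure ℚ_[ℓ]) (T := T) (X := X) (toTS G) ∧
          N = max 4 (codim (toTS G) ^ 2 / 4)) ∨
        N = max 8 ((max 1 (hgt (T := T) (X := X) (toTS G) (AlgebraicClosure ℚ_[ℓ])) *
          codim (toTS G)) ^ codim (toTS G)) := by
    rcases hN with ⟨h5, h6⟩ | ⟨h5, h6⟩ | h6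
    · exact Or.inl ⟨(adj_iff G _).2 h5, h6⟩
    · exact Or.inr (Or.inl ⟨(zero_iff G).2 h5, h6⟩)
    · exact Or.inr (Or.inr (by rw [height_eq]; exact h6))
  have h4' : TS.ActsSemisimply (toTS G) ∨ LinesTate (toTS G) N :=
    h4.imp (h2_iff G).2 (lines_iff G N).2
  have h5 := core3 (T := T) (X := X) (G := toTS G) (Q := algPred T) θ hψ alg_sp
    ((alg_iff G).2 h1) ((inv_iff G _).2 h2) ((cts_iff G).2 h3) h4' hN' ((tq_iff G _).2 hT)
  refine ⟨(h2_iff G).1 h5.1, fun n => ⟨(tq_iff G n).1 (h5.2 n), fun h6 => ?_⟩⟩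
  have h7 := TS.hodge_of_tate (T := T) (X := X) (toTS G) ((h1_iff G).2 h6)
    ((tc_iff G n).2 ((tq_iff G n).1 (h5.2 n)))
  rintro j _ ⟨c, hc, rfl⟩
  obtain ⟨z, hz, rfl⟩ := h7 j c hc
  exact ⟨z, hz, rfl⟩

end Pool.Agent.L0h10.RV
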